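import Mathlib

set_option autoImplicit false

namespace Pool.Agent.Results.MP_1cfa3b_gt.NoOnePoint

open Set Filter Topology unitInterval NNReal

universe u v

/-- `β` is a consistent conical geodesic bicombing. -/
structure IsCCC {X : Type u} [MetricSpace X] (β : X → X → I → X) : Prop where
  cont : Continuous fun p : X × X × I => β p.1 p.2.1 p.2.2
  zero : ∀ x y, β x y 0 = x
  one : ∀ x y, β x y 1 = y
  geod : ∀ x y (s t : I), dist (β x y s) (β x y t) = |(s : ℝ) - t| * dist x y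
  consistent : ∀ x y (s t : I), s < t → range (β (β x y s) (β x y t)) = β x y '' Icc s t
  conical : ∀ x y x' y' (t : I),
    dist (β x y t) (β x' y' t) ≤ (1 - (t : ℝ)) * dist x x' + (t : ℝ) * dist y y'

/-- A `β`-ray: a geodesic ray whose initial segments are reparametrised `β`-geodesics. -/
def IsRay {X : Type u} [MetricSpace X] (β : X → X → I → X) (ξ : ℝ≥0 → X) : Prop :=
  Isometry ξ ∧ ∀ s : ℝ≥0, 0 < s → ∀ t : I, ξ (toNNReal t * s) = β (ξ 0) (ξ s) t

/-- Two `β`-rays are equivalent if they stay at bounded distance. -/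
def raySetoid {X : Type u} [MetricSpace X] (β : X → X → I → X) :
    Setoid {ξ : ℝ≥0 → X // IsRay β ξ} where
  r ξ η := ∃ C : ℝ, ∀ t, dist (ξ.1 t) (η.1 t) ≤ C
  iseqv := ⟨fun _ => ⟨0, fun _ => (dist_self _).le⟩,
    fun ⟨C, h⟩ => ⟨C, fun t => (dist_comm _ _).trans_le (h t)⟩,
    fun ⟨C, h⟩ ⟨C', h'⟩ => ⟨C + C', fun t => (dist_triangle _ _ _).trans (add_le_add (h t) (h' t))⟩⟩

/-- The boundary of `X` with respect to `β`. -/
def Boundary {X : Type u} [MetricSpace X] (β : X → X → I → X) : Type u := Quotient (raySetoid β)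

noncomputable def pt {X : Type u} [MetricSpace X] (β : X → X → I → X) (o x : X) (s : ℝ≥0) : X :=
  β o x (projIcc 0 1 zero_le_one (s / dist o x))

theorem pt_coe {X : Type u} [MetricSpace X] (o x : X) (s : ℝ≥0) (hs : (s : ℝ) ≤ dist o x) :
    ((projIcc (0 : ℝ) 1 zero_le_one (s / dist o x) : I) : ℝ) * dist o x = s := by
  rcases eq_or_lt_of_le (dist_nonneg (x := o) (y := x)) with h | h
  · have : (s : ℝ) = 0 := le_antisymm (h ▸ hs) s.2
    rw [← h, this]; simp
  · rw [projIcc_of_mem _ ⟨by positivity, (div_le_one h).mpr hs⟩]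
    field_simp

theorem pt_dist {X : Type u} [MetricSpace X] {β : X → X → I → X} (h : IsCCC β) (o x : X)
    (s t : ℝ≥0) (hs : (s : ℝ) ≤ dist o x) (ht : (t : ℝ) ≤ dist o x) :
    dist (pt β o x s) (pt β o x t) = |(s : ℝ) - t| := by
  rw [pt, pt, h.geod, ← abs_of_nonneg (dist_nonneg (x := o) (y := x)), ← abs_mul, sub_mul,
    abs_of_nonneg dist_nonneg, pt_coe o x s hs, pt_coe o x t ht]

theorem pt_zero {X : Type u} [MetricSpace X] {β : X → X → I → X} (h : IsCCC β) (o x : X) :
    pt β o x 0 = o := by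
  simp only [pt, NNReal.coe_zero, zero_div, projIcc_left]
  exact h.zero o x

theorem pt_end {X : Type u} [MetricSpace X] {β : X → X → I → X} (h : IsCCC β) (o x : X)
    (s : ℝ≥0) (hs : (s : ℝ) ≤ dist o x) : dist (pt β o x s) x = dist o x - s := by
  have := h.geod o x (projIcc 0 1 zero_le_one (s / dist o x)) 1
  rw [h.one] at this
  rw [pt, this, abs_sub_comm, abs_of_nonneg (by simpa using (projIcc 0 1 zero_le_one _).2.2),
    sub_mul, pt_coe o x s hs]
  simp

theorem pt_cons {X : Type u} [MetricSpace X] {β : X → X → I → X} (h : IsCCC β) (o x : X)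
    (s : ℝ≥0) (hs0 : 0 < s) (hs : (s : ℝ) ≤ dist o x) (t : I) :
    pt β o x (toNNReal t * s) = β o (pt β o x s) t := by
  have hs0' : (0 : ℝ) < s := hs0
  have hd : 0 < dist o x := hs0'.trans_le hs
  have hτ : (0 : I) < projIcc (0 : ℝ) 1 zero_le_one (s / dist o x) := by
    have := pt_coe o x s hs
    by_contra hc
    have h0 : projIcc (0 : ℝ) 1 zero_le_one (s / dist o x) = 0 :=
      le_antisymm (not_lt.mp hc) (unitInterval.nonneg' )
    rw [h0] at this
    simp at this
    exact hs0'.ne this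
  have hc := h.consistent o x 0 _ hτ
  rw [h.zero] at hc
  have hm : β o (pt β o x s) t ∈ β o x '' Icc 0 (projIcc (0 : ℝ) 1 zero_le_one (s / dist o x)) := by
    rw [← hc]; exact mem_range_self t
  obtain ⟨w, -, hw⟩ := hm
  have e1 : dist o (β o (pt β o x s) t) = t * s := by
    have := h.geod o (pt β o x s) 0 t
    rw [h.zero] at this
    have e := pt_dist h o x 0 s (by simp) hs
    rw [pt_zero h] at e
    rw [this, e]
    simp [abs_of_nonneg t.2.1]
  have e2 : dist o (β o x w) = w * dist o x := by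
    have := h.geod o x 0 w
    rw [h.zero] at this
    rw [this]
    simp [abs_of_nonneg w.2.1]
  rw [← hw, pt]
  congr 1
  have hts : ((toNNReal t * s : ℝ≥0) : ℝ) = t * s := rfl
  have hle : ((toNNReal t * s : ℝ≥0) : ℝ) ≤ dist o x := by
    rw [hts]; nlinarith [t.2.1, t.2.2]
  have e3 := pt_coe o x _ hle
  apply Subtype.ext
  apply mul_right_cancel₀ hd.ne'
  rw [e3, hts, ← e2, hw, e1]

theorem limit_ray {X : Type u} [MetricSpace X] [ProperSpace X] {β : X → X → I → X} (h : IsCCC β)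
    (o : X) (x : ℕ → X) (hx : ∀ s : ℝ, ∀ᶠ n in (hyperfilter ℕ : Filter ℕ), s ≤ dist o (x n)) :
    ∃ ξ, IsRay β ξ ∧ ∀ s, Tendsto (fun n => pt β o (x n) s) (hyperfilter ℕ) (𝓝 (ξ s)) := by
  have hex : ∀ s : ℝ≥0, ∃ z, Tendsto (fun n => pt β o (x n) s) (hyperfilter ℕ) (𝓝 z) := by
    intro s
    have hm : ∀ᶠ n in (hyperfilter ℕ : Filter ℕ), pt β o (x n) s ∈ Metric.closedBall o s := by
      filter_upwards [hx s] with n hn
      have e := pt_dist h o (x n) s 0 hn (by simp)
      rw [pt_zero h] at e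
      simp [e]
    obtain ⟨z, -, hz⟩ := (isCompact_closedBall o (s : ℝ)).ultrafilter_le_nhds
      ((hyperfilter ℕ).map fun n => pt β o (x n) s) (Filter.le_principal_iff.mpr hm)
    exact ⟨z, hz⟩
  choose ξ hξ using hex
  have h0 : ξ 0 = o := by
    have := hξ 0
    simp only [pt_zero h] at this
    exact (tendsto_nhds_unique this tendsto_const_nhds)
  refine ⟨ξ, ⟨Isometry.of_dist_eq fun s t => ?_, fun s hs t => ?_⟩, hξ⟩
  · refine tendsto_nhds_unique ((hξ s).dist (hξ t)) (tendsto_const_nhds.congr' ?_)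
    filter_upwards [hx s, hx t] with n h1 h2
    rw [pt_dist h o (x n) s t h1 h2, NNReal.dist_eq]
  · have hc : Tendsto (fun n => β o (pt β o (x n) s) t) (hyperfilter ℕ) (𝓝 (β o (ξ s) t)) :=
      (h.cont.tendsto (o, ξ s, t)).comp
        (tendsto_const_nhds.prodMk_nhds ((hξ s).prodMk_nhds tendsto_const_nhds))
    rw [h0]
    refine tendsto_nhds_unique (hξ _) (hc.congr' ?_)
    filter_upwards [hx s] with n h1
    exact (pt_cons h o (x n) s hs h1 t).symm

theorem result (X : Type u) [MetricSpace X] [ProperSpace X] (β : X → X → I → X) (hb : IsCCC β)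
    (G : Type v) [Group G] [MulAction G X] [IsIsometricSMul G X]
    [CompactSpace (MulAction.orbitRel.Quotient G X)] :
    IsEmpty (Boundary β) ∨ Nontrivial (Boundary β) := by
  rcases isEmpty_or_nonempty (Boundary β) with h | hne
  · exact Or.inl h
  right
  obtain ⟨⟨ζ, hζ, -⟩⟩ := hne
  set o := ζ 0 with ho
  obtain ⟨D, hD⟩ : ∃ D : ℝ, ∀ x : X, ∃ g : G, dist o (g • x) ≤ D := by
    have hopen : IsOpenMap (Quotient.mk (MulAction.orbitRel G X)) := isOpenMap_quotient_mk'_mul
    obtain ⟨N, hN⟩ := (isCompact_univ (X := MulAction.orbitRel.Quotient G X)).elim_directed_cover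
      (fun n : ℕ => Quotient.mk (MulAction.orbitRel G X) '' Metric.ball o n)
      (fun n => hopen _ Metric.isOpen_ball) (by
        rintro ⟨x⟩ -
        obtain ⟨n, hn⟩ := exists_nat_gt (dist x o)
        exact mem_iUnion.mpr ⟨n, x, hn, rfl⟩) (by
        refine Monotone.directed_le fun m n hmn => image_mono (Metric.ball_subset_ball ?_)
        exact_mod_cast hmn)
    refine ⟨N, fun x => ?_⟩
    obtain ⟨y, hy, hxy⟩ := hN (mem_univ (Quotient.mk (MulAction.orbitRel G X) x))
    obtain ⟨g, hg⟩ : y ∈ MulAction.orbit G x := Quotient.exact hxy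
    refine ⟨g, ?_⟩
    have hg' : g • x = y := hg
    rw [hg', dist_comm]
    exact (Metric.mem_ball.mp hy).le
  choose g hg using fun n : ℕ => hD (ζ n)
  let x : ℕ → X := fun n => g n • ζ 0
  let y : ℕ → X := fun n => g n • ζ (2 * n)
  have hx1 : ∀ n, dist (g n • ζ n) (x n) = n := by
    intro n
    simp only [x, dist_smul, hζ.dist_eq, NNReal.dist_eq]
    simp
  have hy1 : ∀ n, dist (g n • ζ n) (y n) = n := by
    intro n
    simp only [y, dist_smul, hζ.dist_eq, NNReal.dist_eq]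
    push_cast
    rw [show (n : ℝ) - 2 * n = -n by ring]
    simp
  have hxy : ∀ n, dist (x n) (y n) = 2 * n := by
    intro n
    simp only [x, y, dist_smul, hζ.dist_eq, NNReal.dist_eq]
    simp
  have hbig : ∀ z : ℕ → X, (∀ n, dist (g n • ζ n) (z n) = n) →
      ∀ s : ℝ, ∀ᶠ n in (hyperfilter ℕ : Filter ℕ), s ≤ dist o (z n) := by
    intro z hz s
    have : ∀ᶠ n : ℕ in atTop, s + D ≤ n := tendsto_natCast_atTop_atTop.eventually_ge_atTop _
    filter_upwards [Nat.hyperfilter_le_atTop this] with n hn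
    have h1 := dist_triangle (g n • ζ n) o (z n)
    rw [hz, dist_comm (g n • ζ n)] at h1
    linarith [hg n]
  obtain ⟨ξ, hξ, hξl⟩ := limit_ray hb o x (hbig x hx1)
  obtain ⟨η, hη, hηl⟩ := limit_ray hb o y (hbig y hy1)
  have hfar : ∀ s : ℝ≥0, 2 * (s : ℝ) - 2 * D ≤ dist (ξ s) (η s) := by
    intro s
    refine ge_of_tendsto ((hξl s).dist (hηl s)) ?_
    filter_upwards [hbig x hx1 s, hbig y hy1 s] with n h1 h2
    have e1 := pt_end hb o (x n) s h1
    have e2 := pt_end hb o (y n) s h2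
    have e3 := dist_triangle4 (x n) (pt β o (x n) s) (pt β o (y n) s) (y n)
    rw [hxy, dist_comm (x n) (pt β o (x n) s), e1, e2] at e3
    have e4 := dist_triangle o (g n • ζ n) (x n)
    have e5 := dist_triangle o (g n • ζ n) (y n)
    rw [hx1] at e4
    rw [hy1] at e5
    linarith [hg n]
  refine ⟨⟨Quotient.mk _ ⟨ξ, hξ⟩, Quotient.mk _ ⟨η, hη⟩, fun h => ?_⟩⟩
  obtain ⟨C, hC⟩ := Quotient.exact h
  obtain ⟨n, hn⟩ := exists_nat_gt (C + 2 * D)
  have h1 := hfar n
  have h2 : dist (ξ n) (η n) ≤ C := hC n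
  have h3 : (0 : ℝ) ≤ n := Nat.cast_nonneg n
  simp only [NNReal.coe_natCast] at h1
  linarith

end Pool.Agent.Results.MP_1cfa3b_gt.NoOnePoint
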